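import Mathlib

/-!
For any two nonempty compact convex sets in a real Hilbert space there is a point whose two
projection normals strongly expose the corresponding projections.
-/

namespace Pool.Agent.Results.MP_3684f0_an.TwoCompactSets

open Topology Filter
open scoped RealInnerProductSpace

/-- `p` is the metric projection of `x` onto `C`: the unique point of `C` nearest to `x`. -/
def IsMetricProj {H : Type*} [NormedAddCommGroup H] (C : Set H) (x p : H) : Prop :=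
  p ∈ C ∧ (∀ y ∈ C, dist x p ≤ dist x y) ∧ ∀ q ∈ C, (∀ y ∈ C, dist x q ≤ dist x y) → q = p

/-- `p ∈ C` is strongly exposed in `C` by the vector `v`, that is, by the functional `⟪v, ·⟫`:
the functional attains its supremum over `C` at `p`, and every sequence in `C` along which the
functional tends to that supremum converges in norm to `p`. -/
def StronglyExposes {H : Type*} [NormedAddCommGroup H] [InnerProductSpace ℝ H]
    (v : H) (C : Set H) (p : H) : Prop :=
  p ∈ C ∧ IsLUB ((fun y => ⟪v, y⟫) '' C) ⟪v, p⟫ ∧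
    ∀ y : ℕ → H, (∀ k, y k ∈ C) →
      Tendsto (fun k => ⟪v, y k⟫) atTop (𝓝 (sSup ((fun y => ⟪v, y⟫) '' C))) →
      Tendsto y atTop (𝓝 p)

/-- If `⟪x - p, p - c⟫ ≥ ‖p - c‖ ^ 2 / 2` for all `c ∈ C`, then `p` is the metric projection of
`x` and is strongly exposed by `x - p`. -/
theorem of_quadratic {H : Type*} [NormedAddCommGroup H] [InnerProductSpace ℝ H]
    {C : Set H} {x p : H} (hp : p ∈ C) (h : ∀ c ∈ C, ‖p - c‖ ^ 2 / 2 ≤ ⟪x - p, p - c⟫) :
    IsMetricProj C x p ∧ StronglyExposes (x - p) C p := by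
  have hsq : ∀ c ∈ C, dist x p ^ 2 + 2 * ‖p - c‖ ^ 2 ≤ dist x c ^ 2 := by
    intro c hc
    have h1 := h c hc
    have h2 : x - c = (x - p) + (p - c) := by abel
    rw [dist_eq_norm, dist_eq_norm, h2, norm_add_sq_real]
    linarith
  have hmax : ∀ c ∈ C, ‖p - c‖ ^ 2 / 2 ≤ ⟪x - p, p⟫ - ⟪x - p, c⟫ := by
    intro c hc
    rw [← inner_sub_right]
    exact h c hc
  have hlub : IsLUB ((fun y => ⟪x - p, y⟫) '' C) ⟪x - p, p⟫ := by
    constructor
    · rintro _ ⟨c, hc, rfl⟩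
      have := hmax c hc
      have h0 : 0 ≤ ‖p - c‖ ^ 2 / 2 := by positivity
      simp only
      linarith
    · intro b hb
      exact hb ⟨p, hp, rfl⟩
  refine ⟨⟨hp, ?_, ?_⟩, hp, hlub, ?_⟩
  · intro c hc
    have h1 := hsq c hc
    have h0 : 0 ≤ ‖p - c‖ ^ 2 := by positivity
    exact abs_le_of_sq_le_sq' (by linarith) dist_nonneg |>.2
  · intro q hq hq'
    have h1 := hsq q hq
    have h2 := hq' p hp
    have h3 : dist x q ^ 2 ≤ dist x p ^ 2 := by gcongr
    have h4 : ‖p - q‖ ^ 2 ≤ 0 := by linarith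
    have h5 : ‖p - q‖ = 0 := by
      have := norm_nonneg (p - q)
      nlinarith
    exact (sub_eq_zero.1 (norm_eq_zero.1 h5)).symm
  · intro y hy hlim
    have hsup : sSup ((fun y => ⟪x - p, y⟫) '' C) = ⟪x - p, p⟫ :=
      hlub.csSup_eq ⟨_, p, hp, rfl⟩
    rw [hsup] at hlim
    have h1 : Tendsto (fun k => ⟪x - p, p⟫ - ⟪x - p, y k⟫) atTop (𝓝 0) := by
      have := (tendsto_const_nhds (x := ⟪x - p, p⟫)).sub hlim
      simpa using this
    have h2 : Tendsto (fun k => ‖p - y k‖ ^ 2) atTop (𝓝 0) := by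
      refine squeeze_zero (fun k => by positivity)
        (g := fun k => 2 * (⟪x - p, p⟫ - ⟪x - p, y k⟫)) (fun k => ?_) ?_
      · have := hmax (y k) (hy k)
        linarith
      · simpa using h1.const_mul 2
    have h3 : Tendsto (fun k => ‖p - y k‖) atTop (𝓝 0) := by
      have := h2.sqrt
      simpa [Real.sqrt_sq (norm_nonneg _)] using this
    rw [tendsto_iff_norm_sub_tendsto_zero]
    simpa [norm_sub_rev] using h3

/-- **For every real Hilbert space and all nonempty compact convex sets `C₁`, `C₂` there is a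
point `x` such that, with `p₁`, `p₂` the metric projections of `x` onto `C₁`, `C₂`, the normal
`x - p₁` strongly exposes `p₁` in `C₁` and `x - p₂` strongly exposes `p₂` in `C₂`.** -/
theorem result (H : Type*) [NormedAddCommGroup H] [InnerProductSpace ℝ H] [CompleteSpace H]
    (C₁ C₂ : Set H) (hne₁ : C₁.Nonempty) (hne₂ : C₂.Nonempty)
    (hc₁ : IsCompact C₁) (hc₂ : IsCompact C₂) (_hconv₁ : Convex ℝ C₁) (_hconv₂ : Convex ℝ C₂) :
    ∃ x p₁ p₂ : H, IsMetricProj C₁ x p₁ ∧ IsMetricProj C₂ x p₂ ∧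
      StronglyExposes (x - p₁) C₁ p₁ ∧ StronglyExposes (x - p₂) C₂ p₂ := by
  have hcont : Continuous fun c : H × H => ‖c.1‖ ^ 2 / 2 + ‖c.2‖ ^ 2 / 2 + 2 * ⟪c.1, c.2⟫ := by
    fun_prop
  obtain ⟨⟨p₁, p₂⟩, ⟨hp₁, hp₂⟩, hmax⟩ :=
    (hc₁.prod hc₂).exists_isMaxOn (hne₁.prod hne₂) hcont.continuousOn
  simp only at hp₁ hp₂
  have h1 : ∀ c ∈ C₁, ‖p₁ - c‖ ^ 2 / 2 ≤ ⟪(2 : ℝ) • (p₁ + p₂) - p₁, p₁ - c⟫ := by
    intro c hc
    have := hmax (show (c, p₂) ∈ C₁ ×ˢ C₂ from ⟨hc, hp₂⟩)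
    simp only [Set.mem_ofPred_eq] at this
    rw [norm_sub_sq_real]
    have e : (2 : ℝ) • (p₁ + p₂) - p₁ = p₁ + (2 : ℝ) • p₂ := by module
    rw [e, inner_add_left, inner_sub_right, inner_sub_right, real_inner_smul_left,
      real_inner_smul_left, real_inner_self_eq_norm_sq, real_inner_comm p₁ p₂,
      real_inner_comm c p₂]
    linarith
  have h2 : ∀ c ∈ C₂, ‖p₂ - c‖ ^ 2 / 2 ≤ ⟪(2 : ℝ) • (p₁ + p₂) - p₂, p₂ - c⟫ := by
    intro c hc
    have := hmax (show (p₁, c) ∈ C₁ ×ˢ C₂ from ⟨hp₁, hc⟩)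
    simp only [Set.mem_ofPred_eq] at this
    rw [norm_sub_sq_real]
    have e : (2 : ℝ) • (p₁ + p₂) - p₂ = p₂ + (2 : ℝ) • p₁ := by module
    rw [e, inner_add_left, inner_sub_right, inner_sub_right, real_inner_smul_left,
      real_inner_smul_left, real_inner_self_eq_norm_sq]
    linarith
  exact ⟨(2 : ℝ) • (p₁ + p₂), p₁, p₂, (of_quadratic hp₁ h1).1, (of_quadratic hp₂ h2).1,
    (of_quadratic hp₁ h1).2, (of_quadratic hp₂ h2).2⟩

end Pool.Agent.Results.MP_3684f0_an.TwoCompactSets
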